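import Pool.Agent.KS6_49.AD.Choice

set_option autoImplicit false

/-!
# The approximation of the sets below a typical set by sets in the degree of `A`
-/

namespace Pool.Agent.KS6_49.AD

open MeasureTheory Filter Encodable Pool.Agent.H454R3.Att Pool.Agent.Helper578.JD
  Pool.Agent.Helper578.JD.Oracle
open scoped ENNReal

/-- the set which codes `A` at the ends of the blocks, and copies `dd n` in the block number `n` -/
def DD (A : Set ℕ) (dd : ℕ → ℕ) : Set ℕ :=
  {x | ∃ k, (st k ≤ x ∧ x < st (k + 1)) ∧ ((x = st k ∧ k ∈ A) ∨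
    (x ≠ st k ∧ (dd k).testBit (x - st k) = true))}

theorem not_mem_DD {A : Set ℕ} {dd : ℕ → ℕ} {x : ℕ} : x ∉ DD A dd ↔
    ∃ k, (st k ≤ x ∧ x < st (k + 1)) ∧ ((x = st k ∧ k ∉ A) ∨
    (x ≠ st k ∧ ¬ (dd k).testBit (x - st k) = true)) := by
  constructor
  · intro h
    obtain ⟨k, hk1, hk2⟩ := st_exists x
    refine ⟨k, ⟨hk1, hk2⟩, ?_⟩
    by_cases hx : x = st k
    · exact Or.inl ⟨hx, fun hB => h ⟨k, ⟨hk1, hk2⟩, Or.inl ⟨hx, hB⟩⟩⟩
    · exact Or.inr ⟨hx, fun hB => h ⟨k, ⟨hk1, hk2⟩, Or.inr ⟨hx, hB⟩⟩⟩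
  · rintro ⟨k, ⟨hk1, hk2⟩, h⟩ ⟨l, ⟨hl1, hl2⟩, h'⟩
    obtain rfl := st_unique hk1 hk2 hl1 hl2
    rcases h with ⟨h3, h4⟩ | ⟨h3, h4⟩ <;> rcases h' with ⟨h5, h6⟩ | ⟨h5, h6⟩
    · exact h4 h6
    · exact h5 h3
    · exact h3 h5
    · exact h4 h6

theorem DD_eqv {A : Set ℕ} {dd : ℕ → ℕ} (hd : FunIn A dd) : TEqv (DD A dd) A := by
  have hstc : ∀ {α : Type} [Primcodable α] {f : α → ℕ}, Computable f →
      Computable fun x => st (f x) := fun hf => c_st hf
  have hb1 : REPred fun p : ℕ × ℕ => st p.2 ≤ p.1 ∧ p.1 < st (p.2 + 1) :=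
    RE.and (RE.le (hstc (by fun_prop)) (by fun_prop)) (RE.lt (by fun_prop) (hstc (by fun_prop)))
  have hsub : Computable fun x : (ℕ × ℕ) × ℕ => x.1.1 - st x.1.2 :=
    Primrec.nat_sub.to_comp.comp (by fun_prop) (hstc (by fun_prop))
  have htb : ComputablePred fun x : (ℕ × ℕ) × ℕ => (x.2).testBit (x.1.1 - st x.1.2) = true :=
    cp_testBit (by fun_prop) hsub
  constructor
  · rw [Red_iff]
    constructor
    · refine REIn.ex (S := fun (x k : ℕ) => (st k ≤ x ∧ x < st (k + 1)) ∧ ((x = st k ∧ k ∈ A) ∨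
        (x ≠ st k ∧ (dd k).testBit (x - st k) = true))) ?_
      refine REIn.and (REIn.of_re hb1) (REIn.or (REIn.and ?_ ?_) (REIn.and ?_ ?_))
      · exact REIn.of_re (RE.eq (by fun_prop) (hstc (by fun_prop)))
      · exact REIn.mem (f := fun p : ℕ × ℕ => p.2) (by fun_prop)
      · exact REIn.of_re (RE.ne (by fun_prop) (hstc (by fun_prop)))
      · exact FunIn.re hd (S := fun (p : ℕ × ℕ) v => v.testBit (p.1 - st p.2) = true)
          (REIn.of_re htb.to_re) (f := fun p => p.2) (by fun_prop)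
    · have h1 : REIn A fun x : ℕ => ∃ k, (st k ≤ x ∧ x < st (k + 1)) ∧ ((x = st k ∧ k ∉ A) ∨
          (x ≠ st k ∧ ¬ (dd k).testBit (x - st k) = true)) := by
        refine REIn.ex (S := fun (x k : ℕ) => (st k ≤ x ∧ x < st (k + 1)) ∧
          ((x = st k ∧ k ∉ A) ∨ (x ≠ st k ∧ ¬ (dd k).testBit (x - st k) = true))) ?_
        refine REIn.and (REIn.of_re hb1) (REIn.or (REIn.and ?_ ?_) (REIn.and ?_ ?_))
        · exact REIn.of_re (RE.eq (by fun_prop) (hstc (by fun_prop)))
        · exact REIn.not_mem (f := fun p : ℕ × ℕ => p.2) (by fun_prop)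
        · exact REIn.of_re (RE.ne (by fun_prop) (hstc (by fun_prop)))
        · exact FunIn.re hd (S := fun (p : ℕ × ℕ) v => ¬ v.testBit (p.1 - st p.2) = true)
            (REIn.of_re htb.not.to_re) (f := fun p => p.2) (by fun_prop)
      exact h1.of_eq fun x => not_mem_DD.symm
  · have hmem : ∀ k, st k ∈ DD A dd ↔ k ∈ A := by
      intro k
      constructor
      · rintro ⟨l, ⟨h1, h2⟩, h⟩
        obtain rfl := st_unique le_rfl (st_lt k) h1 h2
        rcases h with ⟨_, h⟩ | ⟨h, _⟩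
        · exact h
        · exact absurd rfl h
      · intro h
        exact ⟨k, ⟨le_rfl, st_lt k⟩, Or.inl ⟨rfl, h⟩⟩
    have hst : Computable st := hstc (f := fun x : ℕ => x) (by fun_prop)
    rw [Red_iff]
    exact ⟨(REIn.mem hst).of_eq hmem, (REIn.not_mem hst).of_eq fun k => not_congr (hmem k)⟩

/-! ### the density -/

theorem ncard_step (X : Set ℕ) (n : ℕ) : (X ∩ Set.Iio (st (n + 1))).ncard ≤
    (X ∩ Set.Iio (st n)).ncard + (X ∩ Set.Ico (st n) (st (n + 1))).ncard := by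
  have h1 : X ∩ Set.Iio (st (n + 1)) ⊆
      (X ∩ Set.Iio (st n)) ∪ (X ∩ Set.Ico (st n) (st (n + 1))) := by
    rintro x ⟨hx, hn⟩
    rcases Nat.lt_or_ge x (st n) with h | h
    · exact Or.inl ⟨hx, h⟩
    · exact Or.inr ⟨hx, h, hn⟩
  exact (Set.ncard_le_ncard h1 ((fin_inter X _).union
    ((Set.finite_Ico _ _).subset Set.inter_subset_right))).trans (Set.ncard_union_le _ _)

theorem density_bound {X : Set ℕ} {q N : ℕ} (hq : 1 ≤ q)
    (h : ∀ n, N ≤ n → 2 * q * (X ∩ Set.Ico (st n) (st (n + 1))).ncard ≤ (q + 2) * sz n + 2 * q) :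
    upperDensity X ≤ 1 / 2 + 2 / (q : ℝ) := by
  have h1 : ∀ n, N ≤ n → 2 * q * (X ∩ Set.Iio (st n)).ncard ≤
      2 * q * st N + (q + 2) * st n + 2 * q * n := by
    intro n hn
    induction n, hn using Nat.le_induction with
    | base =>
      have := Nat.mul_le_mul_left (2 * q) (ncard_le X (st N))
      omega
    | succ n hn ih =>
      have h2 := Nat.mul_le_mul_left (2 * q) (ncard_step X n)
      have h3 := h n hn
      rw [Nat.mul_add] at h2
      have h4 : (q + 2) * st (n + 1) = (q + 2) * st n + (q + 2) * sz n := by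
        rw [st_succ]; ring
      have h5 : 2 * q * (n + 1) = 2 * q * n + 2 * q := by ring
      rw [h4, h5]
      omega
  set M := N + 7 * (q + 2) + 4 * q + 2 * q * st N + 1 with hM
  apply upperDensity_le
  rw [eventually_atTop]
  refine ⟨st M, fun m hm => ?_⟩
  obtain ⟨n, hn1, hn2⟩ := st_exists m
  have hMn : M ≤ n := by
    by_contra hcon
    have := st_strictMono.monotone (show n + 1 ≤ M by omega)
    omega
  have h2 := h1 (n + 1) (by omega)
  have h3 : (X ∩ Set.Iio m).ncard ≤ (X ∩ Set.Iio (st (n + 1))).ncard :=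
    Set.ncard_le_ncard (Set.inter_subset_inter_right _ (Set.Iio_subset_Iio hn2.le))
      (fin_inter _ _)
  have h4 := (Nat.mul_le_mul_left (2 * q) h3).trans h2
  have h5 : 2 * q * st N + (q + 2) * sz n + 2 * q * (n + 1) ≤ 2 * st n := by
    have h6 : 1 ≤ n := by omega
    have h7 : 7 * (q + 2) + 4 * q + 2 * q * st N ≤ n := by omega
    have h8 := Nat.mul_le_mul_right (n * n) h7
    have h9 : n ≤ n * n := Nat.le_mul_self n
    have h10 : 1 ≤ n * n := h6.trans h9
    unfold sz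
    have h11 : (q + 2) * (3 * n * n + 3 * n + 1) ≤ 7 * (q + 2) * (n * n) := by
      nlinarith
    have h12 : 2 * q * (n + 1) ≤ 4 * q * (n * n) := by nlinarith
    have h13 : 2 * q * st N ≤ 2 * q * st N * (n * n) := Nat.le_mul_of_pos_right _ (by omega)
    have h14 : n * (n * n) = st n := by unfold st; ring
    rw [h14] at h8
    nlinarith
  have h6 : 2 * q * (X ∩ Set.Iio m).ncard ≤ (q + 4) * m := by
    have h7 : (q + 2) * st (n + 1) = (q + 2) * st n + (q + 2) * sz n := by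
      rw [st_succ]; ring
    rw [h7] at h4
    nlinarith
  have hmpos : (0 : ℝ) < m := by
    have h7 : 0 < m := by
      have h8 : st 0 < st M := st_strictMono (by omega)
      have : st 0 = 0 := rfl
      omega
    exact_mod_cast h7
  have hqpos : (0 : ℝ) < q := by exact_mod_cast hq
  have h7 : (2 : ℝ) * q * ((X ∩ Set.Iio m).ncard : ℝ) ≤ (q + 4) * m := by exact_mod_cast h6
  rw [div_le_iff₀ hmpos]
  have h8 : (1 / 2 + 2 / (q : ℝ)) * m = (q + 4) * m / (2 * q) := by
    field_simp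
    ring
  rw [h8, le_div_iff₀ (by positivity)]
  linarith

/-! ### the approximation -/

/-- an index for the reduction of `C` to `B`, which does not depend on the stage -/
theorem exists_index {B C : Set ℕ} (hC : Red C B) : ∃ e,
    (∀ x w, V e x w → Ok B (wd w).1.2 → ((wd w).1.1 = true ↔ x ∈ C)) ∧
    ∀ x, ∃ w, V e x w ∧ Ok B (wd w).1.2 := by
  obtain ⟨⟨R1, hR1, h1⟩, ⟨R0, hR0, h0⟩⟩ := Red_iff.1 hC
  have hR : REPred fun x : ℕ × (Bool × Info) => (x.2.1 = true ∧ R1 x.1 x.2.2) ∨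
      (x.2.1 = false ∧ R0 x.1 x.2.2) :=
    RE.or
      (RE.and (RE.eq (by fun_prop) (by fun_prop))
        (RE.comp hR1 (f := fun x : ℕ × (Bool × Info) => (x.1, x.2.2)) (by fun_prop)))
      (RE.and (RE.eq (by fun_prop) (by fun_prop))
        (RE.comp hR0 (f := fun x : ℕ × (Bool × Info) => (x.1, x.2.2)) (by fun_prop)))
  obtain ⟨e, he⟩ := RE.wst_univ hR
  refine ⟨e, ?_, ?_⟩
  · intro x w hV hok
    rcases (he (x, (wd w).1)).2 ⟨_, hV⟩ with ⟨h2, h3⟩ | ⟨h2, h3⟩
    · simp only at h2 h3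
      rw [h2]
      exact iff_of_true rfl ((h1 x).2 ⟨_, h3, hok⟩)
    · simp only at h2 h3
      rw [h2]
      exact iff_of_false (by simp) ((h0 x).2 ⟨_, h3, hok⟩)
  · intro x
    by_cases hx : x ∈ C
    · obtain ⟨c, hc, hok⟩ := (h1 x).1 hx
      obtain ⟨t, ht⟩ := (he (x, (true, c))).1 (Or.inl ⟨rfl, hc⟩)
      refine ⟨encode ((true, c), t), ?_, by rw [wd_encode]; exact hok⟩
      unfold V; rw [wd_encode]; exact ht
    · obtain ⟨c, hc, hok⟩ := (h0 x).1 hx
      obtain ⟨t, ht⟩ := (he (x, (false, c))).1 (Or.inr ⟨rfl, hc⟩)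
      refine ⟨encode ((false, c), t), ?_, by rw [wd_encode]; exact hok⟩
      unfold V; rw [wd_encode]; exact ht

/-- the computation time of the reduction is computable from the oracle -/
theorem exists_time {B : Set ℕ} {e : ℕ} (h : ∀ x, ∃ w, V e x w ∧ Ok B (wd w).1.2) :
    ∃ g : ℕ → ℕ, FunIn B g ∧ ∀ x, ∃ w, w < g x ∧ V e x w ∧ Ok B (wd w).1.2 := by
  refine unif (S := fun x s => ∃ w, w < s ∧ V e x w ∧ Ok B (wd w).1.2) ?_ ?_
  · have hw := wd_comp
    refine REIn.ex (S := fun (p : ℕ × ℕ) w => w < p.2 ∧ V e p.1 w ∧ Ok B (wd w).1.2) ?_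
    refine REIn.and (REIn.of_re (RE.lt (by fun_prop) (by fun_prop))) (REIn.and ?_ ?_)
    · exact REIn.of_re (V_cp (by fun_prop) (by fun_prop) (by fun_prop)).to_re
    · exact ok_re.comp (f := fun x : (ℕ × ℕ) × ℕ => (wd x.2).1.2) (by fun_prop)
  · intro x
    obtain ⟨w, hV, hok⟩ := h x
    exact ⟨w + 1, w, Nat.lt_succ_self w, hV, hok⟩

/-- the good approximations of a set whose computation time is bounded -/
theorem delta_le_of_good {A B C : Set ℕ} {e q : ℕ} (hq : 1 ≤ q) {h dd : ℕ → ℕ}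
    (hans : ∀ x w, V e x w → Ok B (wd w).1.2 → ((wd w).1.1 = true ↔ x ∈ C))
    (htime : ∃ N, ∀ n, N ≤ n → ∀ x, st n ≤ x → x < st (n + 1) →
      ∃ w, w < h n ∧ V e x w ∧ Ok B (wd w).1.2)
    (hgood : ∀ᶠ n in atTop, ¬ Bd e q n (h n) (dd n) B) :
    delta C (DD A dd) ≤ 1 / 2 + 2 / (q : ℝ) := by
  classical
  obtain ⟨N, hN⟩ := htime
  obtain ⟨M, hM⟩ := eventually_atTop.1 hgood
  unfold delta
  refine density_bound (N := N + M) hq fun n hn => ?_
  have h1 := hM n (by omega)
  unfold Bd at h1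
  rw [not_lt] at h1
  have hP : ∀ j, j < sz n → (P1 e (h n) B (st n + j) ↔ st n + j ∈ C) := by
    intro j hj
    have hlt : st n + j < st (n + 1) := by rw [st_succ]; omega
    obtain ⟨w, hw, hV, hok⟩ := hN n (by omega) (st n + j) (by omega) hlt
    constructor
    · rintro ⟨w', _, hV', hok', h2⟩
      exact (hans _ _ hV' hok').1 h2
    · intro hx
      exact ⟨w, hw, hV, hok, (hans _ _ hV hok).2 hx⟩
  have hcard : (symmDiff C (DD A dd) ∩ Set.Ico (st n) (st (n + 1))).ncard ≤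
      mis (fun j => P1 e (h n) B (st n + j)) (sz n) (dd n) + 1 := by
    set S := (Finset.range (sz n)).filter
      (fun j => ¬ (P1 e (h n) B (st n + j) ↔ (dd n).testBit j = true)) with hS
    have hsub : symmDiff C (DD A dd) ∩ Set.Ico (st n) (st (n + 1)) ⊆
        ((insert (st n) (S.image fun j => st n + j) : Finset ℕ) : Set ℕ) := by
      rintro x ⟨hx, hx1, hx2⟩
      rw [Finset.coe_insert, Finset.coe_image]
      by_cases hxe : x = st n
      · exact Or.inl hxe
      · refine Or.inr ⟨x - st n, ?_, ?_⟩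
        · rw [hS, Finset.mem_coe, Finset.mem_filter, Finset.mem_range]
          have hlt : x - st n < sz n := by rw [st_succ] at hx2; omega
          have heq : st n + (x - st n) = x := by omega
          refine ⟨hlt, ?_⟩
          have h2 := hP (x - st n) hlt
          rw [heq] at h2 ⊢
          rw [h2]
          have h3 : x ∈ DD A dd ↔ (dd n).testBit (x - st n) = true := by
            constructor
            · rintro ⟨l, ⟨h3, h4⟩, h5⟩
              obtain rfl := st_unique hx1 hx2 h3 h4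
              rcases h5 with ⟨h5, _⟩ | ⟨_, h5⟩
              · exact absurd h5 hxe
              · exact h5
            · intro h3
              exact ⟨n, ⟨hx1, hx2⟩, Or.inr ⟨hxe, h3⟩⟩
          rw [← h3]
          rcases hx with ⟨h4, h5⟩ | ⟨h4, h5⟩
          · exact fun h6 => h5 (h6.1 h4)
          · exact fun h6 => h5 (h6.2 h4)
        · show st n + (x - st n) = x
          omega
    have h2 := Set.ncard_le_ncard hsub (Finset.finite_toSet _)
    rw [Set.ncard_coe_finset] at h2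
    have h3 : mis (fun j => P1 e (h n) B (st n + j)) (sz n) (dd n) = S.card := by
      unfold mis
      rw [Nat.count_eq_card_filter_range, hS]
    rw [h3]
    exact h2.trans ((Finset.card_insert_le _ _).trans
      (Nat.add_le_add_right Finset.card_image_le 1))
  have h2 := Nat.mul_le_mul_left (2 * q) hcard
  rw [Nat.mul_add, Nat.mul_one] at h2
  omega

/-- `A` is almost everywhere dominating: for almost every `B`, every function computable from `B`
is dominated by a function computable from `A` -/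
def AED (A : Set ℕ) : Prop := ∀ᵐ b ∂coins, ∀ g : ℕ → ℕ, FunIn (toSet b) g →
  ∃ f : ℕ → ℕ, FunIn A f ∧ ∃ N, ∀ n, N ≤ n → g n ≤ f n

/-- if `A` is almost everywhere dominating then for almost every `B` all sets computable from `B`
are at a distance at most `1/2` from the degree of `A` -/
theorem ae_approx {A : Set ℕ} (hA : AED A) : ∀ᵐ b ∂coins, ∀ C : Set ℕ, Red C (toSet b) →
    ∀ q : ℕ, 1 ≤ q → ∃ D, TEqv D A ∧ delta C D ≤ 1 / 2 + 2 / (q : ℝ) := by
  classical
  have hc := countable_funIn A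
  choose dd hdd hgood using fun (e q : ℕ) (f : {f : ℕ → ℕ // FunIn A f}) =>
    exists_choice e q f.2
  have hall : ∀ᵐ b ∂coins, ∀ (e q : ℕ) (f : {f : ℕ → ℕ // FunIn A f}),
      ∀ᶠ n in atTop, ¬ Bd e q n (f.1 n) (dd e q f n) (toSet b) := by
    rw [ae_all_iff]; intro e
    rw [ae_all_iff]; intro q
    rw [ae_all_iff]; intro f
    exact ae_good (hgood e q f)
  filter_upwards [hA, hall] with b hb1 hb2 C hC q hq
  obtain ⟨e, hans, hexw⟩ := exists_index hC
  obtain ⟨g, hg, hgw⟩ := exists_time hexw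
  obtain ⟨f, hf, N, hfg⟩ := hb1 g hg
  have hstc : Computable fun n : ℕ => st (n + 1) := c_st (by fun_prop)
  obtain ⟨h, hh, hhb⟩ := hf.bound hstc
  refine ⟨DD A (dd e q ⟨h, hh⟩), DD_eqv (hdd e q ⟨h, hh⟩), ?_⟩
  refine delta_le_of_good hq hans ⟨N, fun n hn x hx1 hx2 => ?_⟩ (hb2 e q ⟨h, hh⟩)
  obtain ⟨w, hw, hV, hok⟩ := hgw x
  have h1 : N ≤ x := hn.trans ((st_strictMono.id_le n).trans hx1)
  exact ⟨w, lt_of_lt_of_le hw ((hfg x h1).trans (hhb n x hx2)), hV, hok⟩

end Pool.Agent.KS6_49.AD
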