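import Pool.Agent.KS6_49.AD.Half

set_option autoImplicit false

/-!
# The choice of an approximation, from a bound for the computation time
-/

namespace Pool.Agent.KS6_49.AD

open MeasureTheory Filter Encodable Pool.Agent.H454R3.Att Pool.Agent.Helper578.JD
  Pool.Agent.Helper578.JD.Oracle
open scoped ENNReal

/-- the `e`-th reduction accepts `x` with the oracle `B` before the stage `s` -/
def P1 (e s : ℕ) (B : Set ℕ) (x : ℕ) : Prop :=
  ∃ w, w < s ∧ (V e x w ∧ (Ok B (wd w).1.2 ∧ (wd w).1.1 = true))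

/-- the set coded by `d` is a bad approximation in the block number `n` -/
def Bd (e q n s d : ℕ) (B : Set ℕ) : Prop :=
  (q + 2) * sz n < 2 * q * mis (fun j => P1 e s B (st n + j)) (sz n) d

/-- only the numbers below `L` are used before the stage `s` -/
def LB (s L : ℕ) : Prop := ∀ w < s, (∀ y ∈ (wd w).1.2.1, y < L) ∧ ∀ y ∈ (wd w).1.2.2, y < L

open Classical in
/-- `d` is good for most sets -/
def Good (e q n s d L : ℕ) : Prop :=
  4 * sz n * Nat.count (fun t => Bd e q n s d (bitS t)) (2 ^ L) ≤ q ^ 2 * 2 ^ L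

theorem ok_local {L : ℕ} {c : Info} (h : (∀ y ∈ c.1, y < L) ∧ ∀ y ∈ c.2, y < L) {B B' : Set ℕ}
    (hB : ∀ y < L, y ∈ B ↔ y ∈ B') (hok : Ok B c) : Ok B' c :=
  ⟨fun x hx => (hB x (h.1 x hx)).1 (hok.1 x hx), fun x hx hx' =>
    hok.2 x hx ((hB x (h.2 x hx)).2 hx')⟩

theorem P1_local {e s L x : ℕ} (h : LB s L) {B B' : Set ℕ} (hB : ∀ y < L, y ∈ B ↔ y ∈ B') :
    P1 e s B x ↔ P1 e s B' x := by
  constructor
  · rintro ⟨w, hw, hV, hok, h1⟩
    exact ⟨w, hw, hV, ok_local (h w hw) hB hok, h1⟩
  · rintro ⟨w, hw, hV, hok, h1⟩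
    exact ⟨w, hw, hV, ok_local (h w hw) (fun y hy => (hB y hy).symm) hok, h1⟩

theorem Bd_local {e q n s d L : ℕ} (h : LB s L) {B B' : Set ℕ} (hB : ∀ y < L, y ∈ B ↔ y ∈ B') :
    Bd e q n s d B ↔ Bd e q n s d B' := by
  have h1 : (fun j => P1 e s B (st n + j)) = fun j => P1 e s B' (st n + j) := by
    funext j
    exact propext (P1_local h hB)
  unfold Bd
  rw [h1]

theorem exists_LB (s : ℕ) : ∃ L, LB s L := by
  induction s with
  | zero => exact ⟨0, fun w hw => by omega⟩
  | succ s ih =>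
    obtain ⟨L, hL⟩ := ih
    have hlist : ∀ l : List ℕ, ∃ M, ∀ y ∈ l, y < M := by
      intro l
      induction l with
      | nil => exact ⟨0, by simp⟩
      | cons a l ih =>
        obtain ⟨M, hM⟩ := ih
        refine ⟨M + a + 1, fun y hy => ?_⟩
        rcases List.mem_cons.1 hy with rfl | hy
        · omega
        · have := hM y hy; omega
    obtain ⟨M1, h1⟩ := hlist (wd s).1.2.1
    obtain ⟨M2, h2⟩ := hlist (wd s).1.2.2
    refine ⟨L + M1 + M2, fun w hw => ?_⟩
    rcases Nat.lt_succ_iff_lt_or_eq.1 hw with h | rfl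
    · exact ⟨fun y hy => by have := (hL w h).1 y hy; omega,
        fun y hy => by have := (hL w h).2 y hy; omega⟩
    · exact ⟨fun y hy => by have := h1 y hy; omega, fun y hy => by have := h2 y hy; omega⟩

theorem exists_Good (e q n s : ℕ) : ∃ d L, LB s L ∧ Good e q n s d L := by
  classical
  obtain ⟨L, hL⟩ := exists_LB s
  obtain ⟨d, -, hd⟩ := exists_good (fun t j => P1 e s (bitS t) (st n + j)) (sz n) q L
  refine ⟨d, L, hL, ?_⟩
  unfold Good
  rw [Nat.count_eq_card_filter_range]
  unfold Bd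
  convert hd

/-! ### Computability -/

section comput

variable {α : Type} [Primcodable α]

theorem LB_re : REPred fun p : ℕ × ℕ => LB p.1 p.2 := by
  have hw := wd_comp
  unfold LB
  refine RE.all_lt (p := fun (p : ℕ × ℕ) w => (∀ y ∈ (wd w).1.2.1, y < p.2) ∧
    ∀ y ∈ (wd w).1.2.2, y < p.2) (f := fun p => p.1) (RE.and ?_ ?_) (by fun_prop)
  · exact RE.all_mem (p := fun (x : (ℕ × ℕ) × ℕ) y => y < x.1.2) (l := fun x => (wd x.2).1.2.1)
      (RE.lt (by fun_prop) (by fun_prop)) (by fun_prop)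
  · exact RE.all_mem (p := fun (x : (ℕ × ℕ) × ℕ) y => y < x.1.2) (l := fun x => (wd x.2).1.2.2)
      (RE.lt (by fun_prop) (by fun_prop)) (by fun_prop)

theorem okbit_cp {t : α → ℕ} {c : α → Info} (ht : Computable t) (hc : Computable c) :
    ComputablePred fun a => Ok (bitS (t a)) (c a) := by
  have h1 : ComputablePred fun x : α × ℕ => (t x.1).testBit x.2 = true :=
    cp_testBit (by fun_prop) (by fun_prop)
  refine RE.cp_of_re ?_ ?_
  · refine RE.and ?_ ?_
    · exact RE.all_mem (p := fun a y => (t a).testBit y = true) (l := fun a => (c a).1) h1.to_re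
        (by fun_prop)
    · exact RE.all_mem (p := fun a y => ¬ (t a).testBit y = true) (l := fun a => (c a).2)
        h1.not.to_re (by fun_prop)
  · have h2 : REPred fun a => (∃ y ∈ (c a).1, ¬ (t a).testBit y = true) ∨
        ∃ y ∈ (c a).2, (t a).testBit y = true :=
      RE.or (RE.ex_mem (p := fun a y => ¬ (t a).testBit y = true) (l := fun a => (c a).1)
          h1.not.to_re (by fun_prop))
        (RE.ex_mem (p := fun a y => (t a).testBit y = true) (l := fun a => (c a).2) h1.to_re
          (by fun_prop))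
    refine h2.of_eq fun a => ?_
    unfold Ok bitS
    simp only [Set.mem_ofPred_eq]
    rw [not_and_or]
    push Not
    exact Iff.rfl

theorem P1_cp (e : ℕ) {s t x : α → ℕ} (hs : Computable s) (ht : Computable t)
    (hx : Computable x) : ComputablePred fun a => P1 e (s a) (bitS (t a)) (x a) := by
  have hw := wd_comp
  have hV : ComputablePred fun y : α × ℕ => V e (x y.1) y.2 :=
    V_cp (by fun_prop) (by fun_prop) (by fun_prop)
  have hok : ComputablePred fun y : α × ℕ => Ok (bitS (t y.1)) (wd y.2).1.2 :=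
    okbit_cp (by fun_prop) (by fun_prop)
  refine RE.cp_of_re ?_ ?_
  · refine RE.exN (p := fun a w => w < s a ∧ (V e (x a) w ∧ (Ok (bitS (t a)) (wd w).1.2 ∧
      (wd w).1.1 = true))) ?_
    exact RE.and (RE.lt (by fun_prop) (by fun_prop)) (RE.and hV.to_re (RE.and hok.to_re
      (RE.eq (by fun_prop) (by fun_prop))))
  · have h1 : REPred fun a => ∀ w < s a, ¬ V e (x a) w ∨ (¬ Ok (bitS (t a)) (wd w).1.2 ∨
        (wd w).1.1 ≠ true) :=
      RE.all_lt (p := fun a w => ¬ V e (x a) w ∨ (¬ Ok (bitS (t a)) (wd w).1.2 ∨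
        (wd w).1.1 ≠ true)) (f := s) (RE.or hV.not.to_re (RE.or hok.not.to_re
          (RE.ne (by fun_prop) (by fun_prop)))) hs
    refine h1.of_eq fun a => ?_
    unfold P1
    push Not
    refine forall₂_congr fun w _ => ?_
    tauto

theorem cp_niff {p q : α → Prop} (hp : ComputablePred p) (hq : ComputablePred q) :
    ComputablePred fun a => ¬ (p a ↔ q a) := by
  refine RE.cp_of_re ?_ ?_
  · refine (RE.or (RE.and hp.to_re hq.not.to_re) (RE.and hp.not.to_re hq.to_re)).of_eq
      fun a => ?_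
    tauto
  · refine (RE.or (RE.and hp.to_re hq.to_re) (RE.and hp.not.to_re hq.not.to_re)).of_eq
      fun a => ?_
    tauto

theorem c_st {f : α → ℕ} (hf : Computable f) : Computable fun a => st (f a) := by
  unfold st; fun_prop

theorem c_sz {f : α → ℕ} (hf : Computable f) : Computable fun a => sz (f a) := by
  unfold sz; fun_prop

theorem c_mis (e : ℕ) {n s d t : α → ℕ} (hn : Computable n) (hs : Computable s)
    (hd : Computable d) (ht : Computable t) :
    Computable fun a => mis (fun j => P1 e (s a) (bitS (t a)) (st (n a) + j)) (sz (n a)) (d a) := by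
  classical
  have h0 := c_st (f := fun x : α × ℕ => n x.1) (by fun_prop)
  have h1 : ComputablePred fun x : α × ℕ =>
      ¬ (P1 e (s x.1) (bitS (t x.1)) (st (n x.1) + x.2) ↔ (d x.1).testBit x.2 = true) :=
    cp_niff (P1_cp e (by fun_prop) (by fun_prop) (by fun_prop))
      (cp_testBit (by fun_prop) (by fun_prop))
  unfold mis
  exact c_count (p := fun a j =>
    ¬ (P1 e (s a) (bitS (t a)) (st (n a) + j) ↔ (d a).testBit j = true)) h1 (c_sz hn)

theorem Bd_cp (e q : ℕ) {n s d t : α → ℕ} (hn : Computable n) (hs : Computable s)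
    (hd : Computable d) (ht : Computable t) :
    ComputablePred fun a => Bd e q (n a) (s a) (d a) (bitS (t a)) := by
  have h1 := c_mis e hn hs hd ht
  have h2 := c_sz hn
  exact RE.cp_lt (by fun_prop) (by fun_prop)

theorem Good_re (e q : ℕ) {n s d L : α → ℕ} (hn : Computable n) (hs : Computable s)
    (hd : Computable d) (hL : Computable L) :
    REPred fun a => Good e q (n a) (s a) (d a) (L a) := by
  classical
  have h1 : ComputablePred fun x : α × ℕ => Bd e q (n x.1) (s x.1) (d x.1) (bitS x.2) :=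
    Bd_cp e q (by fun_prop) (by fun_prop) (by fun_prop) (by fun_prop)
  have h2 : Computable fun a => Nat.count (fun t => Bd e q (n a) (s a) (d a) (bitS t)) (2 ^ L a) :=
    c_count (p := fun a t => Bd e q (n a) (s a) (d a) (bitS t)) h1 (c_pow hL)
  have h3 := c_sz hn
  have h4 := c_pow hL
  exact RE.le (by fun_prop) (by fun_prop)

end comput

/-- a choice function computable from `A` -/
theorem exists_choice {A : Set ℕ} (e q : ℕ) {f : ℕ → ℕ} (hf : FunIn A f) :
    ∃ dd : ℕ → ℕ, FunIn A dd ∧ ∀ n, ∃ L, LB (f n) L ∧ Good e q n (f n) (dd n) L := by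
  refine unif (S := fun n d => ∃ L, LB (f n) L ∧ Good e q n (f n) d L) ?_ ?_
  · refine FunIn.re hf (S := fun (p : ℕ × ℕ) v => ∃ L, LB v L ∧ Good e q p.1 v p.2 L)
      (REIn.of_re ?_) (f := fun p => p.1) (by fun_prop)
    refine RE.exN (p := fun (x : (ℕ × ℕ) × ℕ) L => LB x.2 L ∧ Good e q x.1.1 x.2 x.1.2 L) ?_
    exact RE.and (RE.comp LB_re (f := fun y : ((ℕ × ℕ) × ℕ) × ℕ => (y.1.2, y.2)) (by fun_prop))
      (Good_re e q (by fun_prop) (by fun_prop) (by fun_prop) (by fun_prop))
  · intro n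
    exact exists_Good e q n (f n)

/-- the choice is good for almost every set, in all but finitely many blocks -/
theorem ae_good {e q : ℕ} {f dd : ℕ → ℕ}
    (h : ∀ n, ∃ L, LB (f n) L ∧ Good e q n (f n) (dd n) L) :
    ∀ᵐ b ∂coins, ∀ᶠ n in atTop, ¬ Bd e q n (f n) (dd n) (toSet b) := by
  classical
  refine bc (q := q) (E := fun n => {b | Bd e q n (f n) (dd n) (toSet b)}) fun n => ?_
  obtain ⟨L, hL, hG⟩ := h n
  refine ⟨L, _, coins_count L (fun B => Bd e q n (f n) (dd n) B) fun B B' hB => Bd_local hL hB, ?_⟩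
  unfold Good at hG
  rw [Nat.count_eq_card_filter_range] at hG
  exact hG

end Pool.Agent.KS6_49.AD
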