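import Pool.Agent.KS6_49.L8.Helper578.JD.Comp

set_option autoImplicit false

/-!
# Counting: computability, and the second moment of the number of disagreements
-/

namespace Pool.Agent.KS6_49.AD

open Pool.Agent.Helper578.JD

theorem c_count {α : Type} [Primcodable α] {p : α → ℕ → Prop} [∀ a, DecidablePred (p a)]
    (hp : ComputablePred fun x : α × ℕ => p x.1 x.2) {m : α → ℕ} (hm : Computable m) :
    Computable fun a => Nat.count (p a) (m a) := by
  have h1 : Computable fun x : α × (ℕ × ℕ) => x.2.2 + if p x.1 x.2.1 then 1 else 0 := by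
    have h2 : Computable fun x : α × (ℕ × ℕ) => if p x.1 x.2.1 then 1 else 0 :=
      RE.cite (RE.cp_comp hp (f := fun x : α × (ℕ × ℕ) => (x.1, x.2.1)) (by fun_prop))
        (by fun_prop) (by fun_prop)
    exact RE.cadd (by fun_prop) h2
  refine (Computable.nat_rec (f := m) (g := fun _ => 0)
    (h := fun a q => q.2 + if p a q.1 then 1 else 0) hm (by fun_prop) h1).of_eq fun a => ?_
  generalize m a = n
  induction n with
  | zero => simp
  | succ n ih => rw [Nat.count_succ, ← ih]

theorem c_pow {α : Type} [Primcodable α] {f : α → ℕ} (hf : Computable f) :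
    Computable fun a => 2 ^ f a := by
  have hpow : Primrec₂ (fun a b : ℕ => a ^ b) := Primrec₂.unpaired'.1 Nat.Primrec.pow
  exact hpow.to_comp.comp (Computable.const 2) hf

theorem cp_testBit {α : Type} [Primcodable α] {f g : α → ℕ} (hf : Computable f)
    (hg : Computable g) : ComputablePred fun a => (f a).testBit (g a) = true := by
  have h1 : Computable fun a => f a / 2 ^ g a % 2 :=
    Primrec.nat_mod.to_comp.comp (Primrec.nat_div.to_comp.comp hf (c_pow hg)) (Computable.const 2)
  refine (RE.cp_eq h1 (Computable.const 1)).of_eq fun a => ?_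
  rw [Nat.testBit_eq_decide_div_mod_eq, decide_eq_true_eq]

theorem count_congr' {p q : ℕ → Prop} [DecidablePred p] [DecidablePred q] {m : ℕ}
    (h : ∀ j < m, p j ↔ q j) : Nat.count p m = Nat.count q m := by
  rw [Nat.count_eq_card_filter_range, Nat.count_eq_card_filter_range]
  congr 1
  exact Finset.filter_congr fun j hj => h j (Finset.mem_range.1 hj)

open Classical in
/-- the number of places below `m` at which `t` and the binary digits of `d` disagree -/
noncomputable def mis (t : ℕ → Prop) (m d : ℕ) : ℕ :=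
  Nat.count (fun j => ¬ (t j ↔ d.testBit j = true)) m

theorem mis_succ (t : ℕ → Prop) (m d : ℕ) :
    ∃ s : ℤ, (s = 1 ∨ s = -1) ∧ (d < 2 ^ m →
      (2 * (mis t (m + 1) d : ℤ) - (m + 1 : ℕ) = 2 * (mis t m d : ℤ) - m + s) ∧
      (2 * (mis t (m + 1) (2 ^ m + d) : ℤ) - (m + 1 : ℕ) = 2 * (mis t m d : ℤ) - m - s)) := by
  classical
  have h1 : mis t m (2 ^ m + d) = mis t m d := by
    unfold mis
    exact count_congr' fun j hj => by rw [Nat.testBit_two_pow_add_gt hj]
  have h2 : mis t (m + 1) d = mis t m d + if ¬ (t m ↔ d.testBit m = true) then 1 else 0 := by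
    unfold mis
    rw [Nat.count_succ]
  have h3 : mis t (m + 1) (2 ^ m + d) =
      mis t m d + if ¬ (t m ↔ (2 ^ m + d).testBit m = true) then 1 else 0 := by
    rw [← h1]
    unfold mis
    rw [Nat.count_succ]
  by_cases ht : t m
  · refine ⟨1, Or.inl rfl, fun hd => ?_⟩
    rw [Nat.testBit_lt_two_pow hd] at h2
    rw [Nat.testBit_two_pow_add_eq, Nat.testBit_lt_two_pow hd] at h3
    simp only [ht, Bool.false_eq_true, iff_false, not_true_eq_false, not_false_eq_true,
      if_true, Bool.not_false, if_false, Nat.add_zero] at h2 h3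
    rw [h2, h3]
    push_cast
    constructor <;> ring
  · refine ⟨-1, Or.inr rfl, fun hd => ?_⟩
    rw [Nat.testBit_lt_two_pow hd] at h2
    rw [Nat.testBit_two_pow_add_eq, Nat.testBit_lt_two_pow hd] at h3
    simp only [ht, Bool.false_eq_true, iff_self, not_true_eq_false, not_false_eq_true,
      if_true, Bool.not_false, false_iff, if_false, Nat.add_zero] at h2 h3
    rw [h2, h3]
    push_cast
    constructor <;> ring

theorem second_moment (t : ℕ → Prop) (m : ℕ) :
    ∑ d ∈ Finset.range (2 ^ m), (2 * (mis t m d : ℤ) - (m : ℤ)) ^ 2 = (m : ℤ) * 2 ^ m := by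
  induction m with
  | zero => simp [mis]
  | succ m ih =>
    rw [pow_succ, Nat.mul_two, Finset.sum_range_add]
    rw [← Finset.sum_add_distrib]
    have h1 : ∀ d ∈ Finset.range (2 ^ m),
        (2 * (mis t (m + 1) d : ℤ) - (m + 1 : ℕ)) ^ 2 +
          (2 * (mis t (m + 1) (2 ^ m + d) : ℤ) - (m + 1 : ℕ)) ^ 2 =
        2 * (2 * (mis t m d : ℤ) - m) ^ 2 + 2 := by
      intro d hd
      obtain ⟨s, hs, h⟩ := mis_succ t m d
      obtain ⟨h2, h3⟩ := h (Finset.mem_range.1 hd)
      rw [h2, h3]
      rcases hs with rfl | rfl <;> ring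
    refine (Finset.sum_congr rfl h1).trans ?_
    rw [Finset.sum_add_distrib, ← Finset.mul_sum, ih]
    simp only [Finset.sum_const, Finset.card_range, nsmul_eq_mul]
    push_cast
    ring

open Classical in
/-- Chebyshev's inequality -/
theorem cheb (t : ℕ → Prop) (m q : ℕ) :
    4 * m * ((Finset.range (2 ^ m)).filter (fun d => (q + 2) * m < 2 * q * mis t m d)).card ≤
      q ^ 2 * 2 ^ m := by
  rcases Nat.eq_zero_or_pos m with rfl | hm
  · simp
  set S := (Finset.range (2 ^ m)).filter (fun d => (q + 2) * m < 2 * q * mis t m d) with hS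
  have h1 : ∀ d ∈ S, (4 : ℤ) * m ^ 2 ≤ q ^ 2 * (2 * (mis t m d : ℤ) - m) ^ 2 := by
    intro d hd
    have h2 := (Finset.mem_filter.1 hd).2
    have h3 : ((q : ℤ) + 2) * m < 2 * q * mis t m d := by exact_mod_cast h2
    have h4 : (2 : ℤ) * m < q * (2 * (mis t m d : ℤ) - m) := by nlinarith
    have h5 : (0 : ℤ) ≤ 2 * m := by positivity
    have h6 := mul_self_le_mul_self h5 h4.le
    nlinarith
  have h2 : ∑ d ∈ S, (4 : ℤ) * m ^ 2 ≤
      ∑ d ∈ Finset.range (2 ^ m), (q : ℤ) ^ 2 * (2 * (mis t m d : ℤ) - m) ^ 2 :=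
    (Finset.sum_le_sum h1).trans (Finset.sum_le_sum_of_subset_of_nonneg (Finset.filter_subset _ _)
      fun _ _ _ => by positivity)
  rw [Finset.sum_const, nsmul_eq_mul, ← Finset.mul_sum, second_moment] at h2
  have h3 : (m : ℤ) * (4 * m * S.card) ≤ m * (q ^ 2 * 2 ^ m) := by nlinarith
  have h4 : (4 * m * S.card : ℤ) ≤ q ^ 2 * 2 ^ m :=
    le_of_mul_le_mul_left h3 (by exact_mod_cast hm)
  exact_mod_cast h4

open Classical in
/-- the average over all `d` -/
theorem exists_good (T : ℕ → ℕ → Prop) (m q L : ℕ) : ∃ d, d < 2 ^ m ∧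
    4 * m * ((Finset.range (2 ^ L)).filter (fun s => (q + 2) * m < 2 * q * mis (T s) m d)).card ≤
      q ^ 2 * 2 ^ L := by
  by_contra hcon
  push Not at hcon
  have h1 : ∑ d ∈ Finset.range (2 ^ m), q ^ 2 * 2 ^ L <
      ∑ d ∈ Finset.range (2 ^ m), 4 * m *
        ((Finset.range (2 ^ L)).filter (fun s => (q + 2) * m < 2 * q * mis (T s) m d)).card :=
    Finset.sum_lt_sum_of_nonempty ⟨0, Finset.mem_range.2 (by positivity)⟩
      fun d hd => hcon d (Finset.mem_range.1 hd)
  have h2 : ∑ d ∈ Finset.range (2 ^ m),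
        ((Finset.range (2 ^ L)).filter (fun s => (q + 2) * m < 2 * q * mis (T s) m d)).card =
      ∑ s ∈ Finset.range (2 ^ L),
        ((Finset.range (2 ^ m)).filter (fun d => (q + 2) * m < 2 * q * mis (T s) m d)).card := by
    simp_rw [Finset.card_filter]
    exact Finset.sum_comm
  rw [Finset.sum_const, Finset.card_range, smul_eq_mul, ← Finset.mul_sum, h2,
    Finset.mul_sum] at h1
  have h3 : ∑ s ∈ Finset.range (2 ^ L), 4 * m *
        ((Finset.range (2 ^ m)).filter (fun d => (q + 2) * m < 2 * q * mis (T s) m d)).card ≤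
      ∑ s ∈ Finset.range (2 ^ L), q ^ 2 * 2 ^ m :=
    Finset.sum_le_sum fun s _ => cheb (T s) m q
  rw [Finset.sum_const, Finset.card_range, smul_eq_mul] at h3
  have h4 : 2 ^ m * (q ^ 2 * 2 ^ L) = 2 ^ L * (q ^ 2 * 2 ^ m) := by ring
  omega

end Pool.Agent.KS6_49.AD
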