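import Pool.Agent.KS6_49.AD.Meas

set_option autoImplicit false

/-!
# Almost every set has distance `1/2` from a given set
-/

namespace Pool.Agent.KS6_49.AD

open MeasureTheory ProbabilityTheory Filter Topology Pool.Agent.H454R3.Att
open scoped ENNReal

open Classical in
/-- disagreement at one place -/
noncomputable def phi (D : Set ℕ) (i : ℕ) (c : Bool) : ℝ := if (c = true ↔ i ∈ D) then 0 else 1

theorem map_phi (D : Set ℕ) (i : ℕ) : coin.map (phi D i) =
    (2⁻¹ : ℝ≥0∞) • (Measure.dirac (0 : ℝ) + Measure.dirac (1 : ℝ)) := by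
  have hm : Measurable (phi D i) := measurable_of_countable _
  unfold coin
  rw [Measure.map_smul, Measure.map_add _ _ hm, Measure.map_dirac' hm, Measure.map_dirac' hm]
  by_cases hi : i ∈ D
  · have h1 : phi D i true = 0 := by simp [phi, hi]
    have h2 : phi D i false = 1 := by simp [phi, hi]
    rw [h1, h2]
  · have h1 : phi D i true = 1 := by simp [phi, hi]
    have h2 : phi D i false = 0 := by simp [phi, hi]
    rw [h1, h2, add_comm]

theorem map_eval (i : ℕ) : coins.map (fun b : ℕ → Bool => b i) = coin :=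
  (measurePreserving_eval_infinitePi (fun _ : ℕ => coin) i).map_eq

theorem ae_half (D : Set ℕ) : ∀ᵐ b ∂coins,
    Tendsto (fun n : ℕ => ((symmDiff (toSet b) D ∩ Set.Iio n).ncard : ℝ) / n) atTop
      (𝓝 (1 / 2)) := by
  classical
  set X : ℕ → (ℕ → Bool) → ℝ := fun i b => phi D i (b i) with hX
  have hphi : ∀ i, Measurable (phi D i) := fun i => measurable_of_countable _
  have hXm : ∀ i, Measurable (X i) := fun i => (hphi i).comp (measurable_pi_apply i)
  have hmap : ∀ i, coins.map (X i) =
      (2⁻¹ : ℝ≥0∞) • (Measure.dirac (0 : ℝ) + Measure.dirac (1 : ℝ)) := by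
    intro i
    rw [← map_phi D i, ← map_eval i, Measure.map_map (hphi i) (measurable_pi_apply i)]
    rfl
  have hb : ∀ i b, ‖X i b‖ ≤ 1 := by
    intro i b
    simp only [hX, phi]
    split_ifs <;> simp
  have hint : Integrable (X 0) coins :=
    Integrable.of_bound (hXm 0).aestronglyMeasurable 1 (Eventually.of_forall (hb 0))
  have hind : iIndepFun (fun (i : ℕ) (w : ℕ → Bool) => w i) coins :=
    iIndepFun_infinitePi (P := fun _ : ℕ => coin) (X := fun _ x => x) (fun _ => measurable_id)
  have hindX : iIndepFun X coins := hind.comp (fun i => phi D i) hphi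
  have hpair : Pairwise (Function.onFun (fun f g => IndepFun f g coins) X) :=
    fun i j hij => hindX.indepFun hij
  have hid : ∀ i, IdentDistrib (X i) (X 0) coins coins := fun i =>
    ⟨(hXm i).aemeasurable, (hXm 0).aemeasurable, by rw [hmap, hmap]⟩
  have hexp : ∫ b, X 0 b ∂coins = 1 / 2 := by
    have h1 : ∫ b, X 0 b ∂coins = ∫ y, y ∂(coins.map (X 0)) := by
      rw [integral_map (hXm 0).aemeasurable (by fun_prop)]
    rw [h1, hmap, integral_smul_measure, integral_add_measure (integrable_dirac (by simp)) (integrable_dirac (by simp))]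
    simp
  have hslln := strong_law_ae_real X hint hpair hid
  filter_upwards [hslln] with b hb
  rw [hexp] at hb
  refine hb.congr fun n => ?_
  congr 1
  have h1 : symmDiff (toSet b) D ∩ Set.Iio n =
      ((Finset.range n).filter (fun i => ¬ (b i = true ↔ i ∈ D)) : Set ℕ) := by
    ext i
    simp only [Set.mem_inter_iff, Set.mem_symmDiff, Set.mem_Iio, toSet, Set.mem_ofPred_eq,
      Finset.coe_filter, Finset.mem_range]
    tauto
  rw [h1, Set.ncard_coe_finset, Finset.card_filter]
  push_cast
  refine Finset.sum_congr rfl fun i _ => ?_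
  simp only [hX, phi]
  by_cases h : (b i = true ↔ i ∈ D)
  · rw [if_pos h, if_neg (not_not.2 h)]
  · rw [if_neg h, if_pos h]

theorem ae_delta (D : Set ℕ) : ∀ᵐ b ∂coins, delta (toSet b) D = 1 / 2 := by
  filter_upwards [ae_half D] with b hb
  exact hb.limsup_eq

end Pool.Agent.KS6_49.AD
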