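import Pool.Agent.KS6_49.AD.Appr
import Pool.Agent.KS6_49.L8.H454R3.Att.Main

set_option autoImplicit false

/-!
# Attractive degrees and almost everywhere dominating degrees
-/

namespace Pool.Agent.KS6_49.AD

open MeasureTheory Filter Encodable Pool.Agent.H454R3 Pool.Agent.H454R3.Att Pool.Agent.Helper578.JD
  Pool.Agent.Helper578.JD.Oracle
open scoped ENNReal

theorem bounded (s : Set CoarseSpace) : Bornology.IsBounded s := by
  rw [Metric.isBounded_iff]
  refine ⟨1, fun a _ b _ => ?_⟩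
  obtain ⟨a, rfl⟩ := SeparationQuotient.surjective_mk a
  obtain ⟨b, rfl⟩ := SeparationQuotient.surjective_mk b
  exact upperDensity_le_one _

theorem self_mem (A : Set ℕ) : cls A ∈ degClosure A :=
  subset_closure ⟨A, ⟨Red.refl A, Red.refl A⟩, rfl⟩

theorem le_H {A B : Set ℕ} {r : ℝ} (h : ∀ D, Red D A → r ≤ delta B D) : r ≤ Att.H A B := by
  unfold Att.H
  rw [Metric.hausdorffDist_comm]
  have h1 := Metric.infDist_le_hausdorffDist_of_mem (self_mem B)
    (Metric.hausdorffEDist_ne_top_of_nonempty_of_bounded ⟨_, self_mem B⟩ ⟨_, self_mem A⟩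
      (bounded (degClosure B)) (bounded (degClosure A)))
  refine le_trans ?_ h1
  rw [Metric.le_infDist ⟨_, self_mem A⟩]
  intro y hy
  refine le_of_forall_pos_le_add fun ε hε => ?_
  obtain ⟨_, ⟨D, hD, rfl⟩, hyD⟩ := Metric.mem_closure_iff.1 hy ε hε
  have h2 := h D hD.1
  have h3 := dist_triangle (cls B) y (cls D)
  rw [dist_cls B D] at h3
  linarith

theorem infDist_degClosure_le {A C : Set ℕ} {r : ℝ}
    (h : ∀ q : ℕ, 1 ≤ q → ∃ D, TEqv D A ∧ delta C D ≤ r + 2 / (q : ℝ)) :
    Metric.infDist (cls C) (degClosure A) ≤ r := by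
  refine le_of_forall_pos_le_add fun ε hε => ?_
  obtain ⟨q, hq⟩ := exists_nat_gt (2 / ε)
  have hq0 : (0 : ℝ) < q := lt_trans (by positivity) hq
  have hq1 : 1 ≤ q := by exact_mod_cast hq0
  obtain ⟨D, hD, hCD⟩ := h q hq1
  have h1 : Metric.infDist (cls C) (degClosure A) ≤ dist (cls C) (cls D) :=
    Metric.infDist_le_dist_of_mem (subset_closure ⟨D, hD, rfl⟩)
  rw [dist_cls] at h1
  have h2 : 2 / (q : ℝ) ≤ ε := by
    rw [div_lt_iff₀ hε] at hq
    rw [div_le_iff₀ hq0]
    linarith
  linarith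

theorem infDist_closure_le {A B : Set ℕ} {r : ℝ}
    (h : ∀ C, TEqv C A → Metric.infDist (cls C) (degClosure B) ≤ r) :
    ∀ x ∈ degClosure A, Metric.infDist x (degClosure B) ≤ r := by
  intro x hx
  refine closure_minimal (t := {x | Metric.infDist x (degClosure B) ≤ r}) ?_ ?_ hx
  · rintro _ ⟨C, hC, rfl⟩
    exact h C hC
  · exact isClosed_le (Metric.continuous_infDist_pt _) continuous_const

theorem countable_red (A : Set ℕ) : Countable {D : Set ℕ // Red D A} := by
  have h1 : ∀ D : {D : Set ℕ // Red D A}, ∃ e : ℕ, ∀ x : ℕ, x ∈ D.1 ↔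
      ∃ c, (∃ s, RE.wst (ℕ × Info) e s (x, c) = true) ∧ Ok A c := by
    rintro ⟨D, hD⟩
    obtain ⟨⟨R, hR, h⟩, -⟩ := Red_iff.1 hD
    obtain ⟨e, he⟩ := RE.wst_univ hR
    refine ⟨e, fun p => (h p).trans ?_⟩
    exact exists_congr fun c => and_congr_left fun _ => he (p, c)
  choose e he using h1
  refine (Function.Injective.countable (f := e) fun f g hfg => ?_)
  ext n
  rw [he f n, he g n, hfg]

/-- every almost everywhere dominating set is attractive -/
theorem attractive_of_aed {A : Set ℕ} (hA : AED A) : Attractive A := by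
  have hc := countable_red A
  have h1 : ∀ᵐ b ∂coins, ∀ D : {D : Set ℕ // Red D A}, delta (toSet b) D.1 = 1 / 2 := by
    rw [ae_all_iff]
    intro D
    exact ae_delta D.1
  filter_upwards [h1, ae_approx hA] with b hb1 hb2
  refine le_antisymm ?_ (le_H fun D hD => (hb1 ⟨D, hD⟩).ge)
  refine Metric.hausdorffDist_le_of_infDist (by norm_num) ?_ ?_
  · refine infDist_closure_le fun C hC => ?_
    refine infDist_degClosure_le fun q _ => ⟨toSet b, ⟨Red.refl _, Red.refl _⟩, ?_⟩
    rw [delta_comm, hb1 ⟨C, hC.1⟩]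
    have : (0 : ℝ) ≤ 2 / (q : ℝ) := by positivity
    linarith
  · refine infDist_closure_le fun C hC => ?_
    exact infDist_degClosure_le fun q hq => hb2 C hC.1 q hq

/-- every attractive set of computably enumerable degree is almost everywhere dominating -/
theorem aed_of_attractive {A W : Set ℕ} (hW : REPred fun n => n ∈ W) (hWA : TEqv W A)
    (hatt : Attractive A) : AED A := by
  obtain ⟨a, ha⟩ := RE.wst_univ hW
  filter_upwards [hatt] with b hb g hg
  by_contra hcon
  push Not at hcon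
  have := one_le_H ha hWA hg fun f hf N => hcon f (reMono hf hWA.1) N
  rw [hb] at this
  norm_num at this

/-- an almost everywhere dominating set is generalized high -/
theorem aed_high {A : Set ℕ} (hA : AED A) : Red (jump (jump ∅)) (jump A) := by
  by_contra hcon
  choose nn hnn using exists_dead
  obtain ⟨b, ⟨hb1, hb2⟩, hb3⟩ := exists_avoiding (hA.and (ae_escape hcon)) nn
  obtain ⟨g, hg, hgQ⟩ := unif (Q_re b) (Q_total hnn hb3)
  obtain ⟨f, hf, N, hfg⟩ := hb1 g hg
  obtain ⟨n, hn, hlt⟩ := hb2 f hf g hgQ N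
  exact absurd (hfg n hn) (by omega)

/-- the coded graph of the function `F` -/
def graph (F : ℕ → ℕ) : Set ℕ := {x | F x.unpair.1 = x.unpair.2}

theorem funIn_iff {A : Set ℕ} {F : ℕ → ℕ} : FunIn A F ↔ Red (graph F) A := by
  constructor
  · intro h
    rw [Red_iff]
    have h1 : REIn A fun x : ℕ => x ∈ graph F :=
      REIn.comp (S := fun p : ℕ × ℕ => F p.1 = p.2) h (f := fun x : ℕ => x.unpair)
        (by fun_prop)
    refine ⟨h1, ?_⟩
    exact FunIn.re h (S := fun (x : ℕ) v => v ≠ x.unpair.2)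
      (REIn.of_re (RE.ne (by fun_prop) (by fun_prop))) (f := fun x => x.unpair.1) (by fun_prop)
  · intro h
    have h1 := (Red_iff.1 h).1
    refine (REIn.comp (S := fun x : ℕ => x ∈ graph F) h1
      (f := fun p : ℕ × ℕ => Nat.pair p.1 p.2) (by fun_prop)).of_eq fun p => ?_
    show F (Nat.pair p.1 p.2).unpair.1 = (Nat.pair p.1 p.2).unpair.2 ↔ _
    rw [Nat.unpair_pair]

theorem high_of_attractive {A W : Set ℕ} (hW : REPred fun n => n ∈ W) (hWA : TEqv W A)
    (hatt : Attractive A) : High A :=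
  ⟨jump_mono (hWA.2.trans (red_jump_empty hW)), aed_high (aed_of_attractive hW hWA hatt)⟩

end Pool.Agent.KS6_49.AD
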