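import Pool.Agent.KS6_49.AD.Cnt
import Pool.Agent.KS6_49.L8.H454R3.Att.Main

set_option autoImplicit false

/-!
# Events which depend on finitely many coins
-/

namespace Pool.Agent.KS6_49.AD

open MeasureTheory Filter Pool.Agent.H454R3.Att
open scoped ENNReal

/-- the set of the binary digits which are `1` -/
def bitS (s : ℕ) : Set ℕ := {y | s.testBit y = true}

/-- the sequences which begin with the first `L` binary digits of `s` -/
def cyl (L s : ℕ) : Set (ℕ → Bool) := {b | ∀ y < L, b y = s.testBit y}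

theorem coins_cyl (L s : ℕ) : coins (cyl L s) = (2⁻¹) ^ L := by
  have h : cyl L s = Set.pi (Finset.range L : Set ℕ) (fun y => ({s.testBit y} : Set Bool)) := by
    ext w
    simp [cyl, Set.mem_pi]
  rw [h, coins, Measure.infinitePi_pi _ (fun i _ => measurableSet_singleton _)]
  simp [coin_singleton]

theorem cyl_meas (L s : ℕ) : MeasurableSet (cyl L s) := by
  have h : DepF (Finset.range L) (cyl L s) := by
    intro w w' h
    have h1 : ∀ y < L, w y = w' y := fun y hy => h y (Finset.mem_range.2 hy)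
    constructor
    · intro hw y hy
      rw [← h1 y hy]; exact hw y hy
    · intro hw y hy
      rw [h1 y hy]; exact hw y hy
  exact h.measurableSet

theorem exists_code (b : ℕ → Bool) (L : ℕ) : ∃ s < 2 ^ L, ∀ y < L, b y = s.testBit y := by
  induction L with
  | zero => exact ⟨0, by simp, fun y hy => by omega⟩
  | succ L ih =>
    obtain ⟨s, hs, h⟩ := ih
    by_cases hb : b L = true
    · refine ⟨2 ^ L + s, by rw [pow_succ]; omega, fun y hy => ?_⟩
      rcases Nat.lt_succ_iff_lt_or_eq.1 hy with h1 | rfl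
      · rw [Nat.testBit_two_pow_add_gt h1]; exact h y h1
      · rw [Nat.testBit_two_pow_add_eq, Nat.testBit_lt_two_pow hs, hb]; rfl
    · refine ⟨s, by rw [pow_succ]; omega, fun y hy => ?_⟩
      rcases Nat.lt_succ_iff_lt_or_eq.1 hy with h1 | rfl
      · exact h y h1
      · rw [Nat.testBit_lt_two_pow hs]
        simpa using hb

open Classical in
/-- the probability of an event which depends on the first `L` coins -/
theorem coins_count (L : ℕ) (Q : Set ℕ → Prop)
    (hQ : ∀ B B' : Set ℕ, (∀ y < L, y ∈ B ↔ y ∈ B') → (Q B ↔ Q B')) :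
    coins {b | Q (toSet b)} =
      (((Finset.range (2 ^ L)).filter (fun s => Q (bitS s))).card : ℝ≥0∞) * (2⁻¹) ^ L := by
  set S := (Finset.range (2 ^ L)).filter (fun s => Q (bitS s)) with hS
  have h1 : {b | Q (toSet b)} = ⋃ s ∈ S, cyl L s := by
    ext b
    simp only [Set.mem_ofPred_eq, Set.mem_iUnion, exists_prop]
    constructor
    · intro hb
      obtain ⟨s, hs, h⟩ := exists_code b L
      refine ⟨s, ?_, h⟩
      rw [hS, Finset.mem_filter, Finset.mem_range]
      refine ⟨hs, (hQ _ _ fun y hy => ?_).1 hb⟩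
      simp only [toSet, bitS, Set.mem_ofPred_eq, h y hy]
    · rintro ⟨s, hs, h⟩
      refine (hQ _ _ fun y hy => ?_).2 (Finset.mem_filter.1 hs).2
      simp only [toSet, bitS, Set.mem_ofPred_eq, h y hy]
  rw [h1, measure_biUnion_finset ?_ fun s _ => cyl_meas L s]
  · rw [Finset.sum_congr rfl fun s _ => coins_cyl L s, Finset.sum_const, nsmul_eq_mul]
  · intro s hs s' hs' hne
    rw [Function.onFun, Set.disjoint_left]
    intro b hb hb'
    apply hne
    have h2 := Finset.mem_range.1 (Finset.mem_filter.1 (Finset.mem_coe.1 hs)).1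
    have h3 := Finset.mem_range.1 (Finset.mem_filter.1 (Finset.mem_coe.1 hs')).1
    apply Nat.eq_of_testBit_eq
    intro y
    rcases Nat.lt_or_ge y L with hy | hy
    · rw [← hb y hy, ← hb' y hy]
    · rw [Nat.testBit_lt_two_pow (h2.trans_le (Nat.pow_le_pow_right (by norm_num) hy)),
        Nat.testBit_lt_two_pow (h3.trans_le (Nat.pow_le_pow_right (by norm_num) hy))]

/-! ### The blocks -/

/-- the beginning of the block -/
def st (n : ℕ) : ℕ := n * n * n

/-- the length of the block -/
def sz (n : ℕ) : ℕ := 3 * n * n + 3 * n + 1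

theorem st_succ (n : ℕ) : st (n + 1) = st n + sz n := by
  unfold st sz; ring

theorem sz_pos (n : ℕ) : 0 < sz n := by unfold sz; omega

theorem st_lt (n : ℕ) : st n < st (n + 1) := by
  rw [st_succ]; have := sz_pos n; omega

theorem st_strictMono : StrictMono st := strictMono_nat_of_lt_succ st_lt

theorem st_unique {k l x : ℕ} (h1 : st k ≤ x) (h2 : x < st (k + 1)) (h3 : st l ≤ x)
    (h4 : x < st (l + 1)) : k = l := by
  rcases lt_trichotomy k l with h | h | h
  · have := st_strictMono.monotone (show k + 1 ≤ l from h); omega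
  · exact h
  · have := st_strictMono.monotone (show l + 1 ≤ k from h); omega

theorem st_exists (x : ℕ) : ∃ k, st k ≤ x ∧ x < st (k + 1) := by
  have hex : ∃ k, x < st k := ⟨x + 1, lt_of_lt_of_le (Nat.lt_succ_self x) (st_strictMono.id_le _)⟩
  have h1 := Nat.find_spec hex
  have h2 : Nat.find hex ≠ 0 := by
    intro h
    rw [h] at h1
    have : st 0 = 0 := rfl
    omega
  obtain ⟨k, hk⟩ : ∃ k, Nat.find hex = k + 1 := ⟨Nat.find hex - 1, by omega⟩
  rw [hk] at h1
  refine ⟨k, ?_, h1⟩
  have := Nat.find_min hex (m := k) (by omega)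
  omega

/-- Borel-Cantelli, for events counted with the bound of `exists_good` -/
theorem bc {q : ℕ} {E : ℕ → Set (ℕ → Bool)}
    (h : ∀ n, ∃ L c : ℕ, coins (E n) = (c : ℝ≥0∞) * (2⁻¹) ^ L ∧ 4 * sz n * c ≤ q ^ 2 * 2 ^ L) :
    ∀ᵐ b ∂coins, ∀ᶠ n in atTop, b ∉ E n := by
  apply ae_eventually_notMem
  have h1 : ∀ n, coins (E n) ≤ ENNReal.ofReal ((q : ℝ) ^ 2 * (1 / ((n : ℝ) + 1) ^ 2)) := by
    intro n
    obtain ⟨L, c, hc, hb⟩ := h n
    have h2 : coins (E n) = ENNReal.ofReal ((c : ℝ) * (2⁻¹) ^ L) := by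
      rw [hc, ENNReal.ofReal_mul (by positivity), ENNReal.ofReal_natCast, ENNReal.ofReal_pow
        (by norm_num), ENNReal.ofReal_inv_of_pos (by norm_num)]
      norm_num
    rw [h2]
    apply ENNReal.ofReal_le_ofReal
    have h3 : (4 * sz n * c : ℝ) ≤ q ^ 2 * 2 ^ L := by exact_mod_cast hb
    have h4 : ((n : ℝ) + 1) ^ 2 ≤ 4 * sz n := by
      have : (sz n : ℝ) = 3 * n * n + 3 * n + 1 := by unfold sz; push_cast; ring
      rw [this]
      have hn : (0 : ℝ) ≤ n := Nat.cast_nonneg n
      nlinarith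
    have h5 : (c : ℝ) * ((n : ℝ) + 1) ^ 2 ≤ q ^ 2 * 2 ^ L :=
      le_trans (by nlinarith [Nat.cast_nonneg (α := ℝ) c]) h3
    rw [inv_pow, mul_one_div, le_div_iff₀ (by positivity), mul_right_comm, ← div_eq_mul_inv,
      div_le_iff₀ (by positivity)]
    exact h5
  refine ne_top_of_le_ne_top ?_ (ENNReal.tsum_le_tsum h1)
  apply Summable.tsum_ofReal_ne_top
  refine Summable.mul_left _ ?_
  have := (Real.summable_one_div_nat_pow (p := 2)).2 (by norm_num)
  have h2 := (summable_nat_add_iff 1).2 this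
  refine h2.congr fun n => ?_
  push_cast
  rfl

end Pool.Agent.KS6_49.AD
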